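import Pool.Agent.MQG.StmtsA

/-!
# Squad MQG, row MUA: the multiplier property for `U` and the slices of `U^` (helper80)
-/

set_option autoImplicit false

namespace Pool.Agent.MQG.H80

open scoped InnerProductSpace InnerProduct Topology ComplexConjugate
open Complex Filter Pool.Agent.MQG

section emb

variable {α β γ δ : Type}

/-- the map `g ↦ (ξ ↦ ξ ⊗ g)` -/
noncomputable def embL (e : γ ≃ α × β) : L2 β →L[ℂ] (L2 α →L[ℂ] L2 γ) :=
  LinearMap.mkContinuous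
    { toFun := fun g => emb e g
      map_add' := fun g h => emb_add e g h
      map_smul' := fun r g => emb_smul e r g } 1
    (fun g => by
      rw [one_mul]
      exact norm_emb_le e g)

theorem embL_apply (e : γ ≃ α × β) (g : L2 β) : embL e g = emb e g := rfl

/-- the map `g ↦ (ξ ↦ X (ξ ⊗ g))` -/
noncomputable def RL (e : γ ≃ α × β) (X : L2 γ →L[ℂ] L2 δ) : L2 β →L[ℂ] (L2 α →L[ℂ] L2 δ) :=
  (ContinuousLinearMap.compL ℂ (L2 α) (L2 γ) (L2 δ) X) ∘L embL e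

theorem RL_apply (e : γ ≃ α × β) (X : L2 γ →L[ℂ] L2 δ) (g : L2 β) (ξ : L2 α) :
    RL e X g ξ = X (tl e ξ g) := rfl

end emb

theorem isClosed_Cols {κ ι : Type} (U : Op (κ × ι)) :
    IsClosed (Cols U : Set (L2 κ →L[ℂ] L2 (κ × ι))) :=
  Submodule.isClosed_topologicalClosure _

theorem col_mem {κ ι : Type} (U : Op (κ × ι)) {a : Op κ} (ha : a ∈ Aalg U) (h : L2 ι) :
    col a h ∈ Cols U :=
  Submodule.le_topologicalClosure _ (Submodule.subset_span ⟨a, ha, h, rfl⟩)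

theorem sl_star_mem {κ ι : Type} (U : Op (κ × ι)) (u y : L2 ι) : sl (star U) u y ∈ Aalg U := by
  rw [sl_star]
  exact star_mem (sl_mem U y u)

theorem sl_apply {κ ι : Type} (U : Op (κ × ι)) (u y : L2 ι) (k : L2 κ) :
    sl U u y k = ((emb (Equiv.refl (κ × ι)) u)†) (U (tn k y)) := rfl

theorem col_apply {κ ι : Type} (a : Op κ) (h : L2 ι) (k : L2 κ) : col a h k = tn (a k) h := rfl

/-- the operators `R'` -/
theorem mem2 {κ ι : Type} (U : Op (κ × ι)) (v : L2 ι) (η : L2 (ι × ι)) :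
    RL (Equiv.refl (κ × ι × ι)) (((emb e13 v)†) ∘L star (l12 U)) η ∈ Cols U := by
  refine total_tn.mem_of_closed ((Cols U).comap
    ((RL (Equiv.refl (κ × ι × ι)) (((emb e13 v)†) ∘L star (l12 U)) :
      L2 (ι × ι) →L[ℂ] (L2 κ →L[ℂ] L2 (κ × ι))) : L2 (ι × ι) →ₗ[ℂ] (L2 κ →L[ℂ] L2 (κ × ι))))
    ((isClosed_Cols U).preimage (ContinuousLinearMap.continuous _)) ?_ η
  rintro _ ⟨p, q, rfl⟩
  change RL (Equiv.refl (κ × ι × ι)) (((emb e13 v)†) ∘L star (l12 U)) (tn p q) ∈ Cols U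
  have h1 : RL (Equiv.refl (κ × ι × ι)) (((emb e13 v)†) ∘L star (l12 U)) (tn p q) =
      col (sl (star U) v p) q := by
    ext k : 1
    rw [RL_apply, ContinuousLinearMap.comp_apply, ← l12_star, ← tn_eq, l12_tn, adj_e13_tl_e12,
      col_apply, sl_apply]
  rw [h1]
  exact col_mem U (sl_star_mem U v p) q

/-- MUA -/
theorem mua (key : KeyStmt) (tta : TtaStmt) : MuaStmt := by
  intro ι M κ U Uh hU hh g b h hg hb
  obtain ⟨X, hX⟩ : ∃ X : L2 (κ × ι × ι) →L[ℂ] L2 (κ × ι),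
      X = ((emb e13 (star (g 0)))†) ∘L l23 M.Wt ∘L l12 Uh := ⟨_, rfl⟩
  -- (1)
  have h1 : U ∘L col (sl Uh (star (g 0)) (star (b 0))) h =
      RL (Equiv.refl (κ × ι × ι)) X (star M.Wt (tn (star (b 0)) h)) := by
    ext k : 1
    have hk := key ι M κ U Uh hU hh
    have hW : (l23 M.Wt : Op (κ × ι × ι)) * star (l23 M.Wt) = 1 :=
      (Unitary.mem_iff.1 (l23_unitary M.Wt_unitary)).2
    have hk2 : l13 U * l12 Uh = (l23 M.Wt * l12 Uh * star (l23 M.Wt) : Op (κ × ι × ι)) := by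
      rw [hk, mul_assoc, mul_assoc, hW, mul_one]
    have h2 : l13 U (l12 Uh (tn k (tn (star (b 0)) h))) =
        l23 M.Wt (l12 Uh (star (l23 M.Wt) (tn k (tn (star (b 0)) h)))) := by
      have h3 := DFunLike.congr_fun hk2 (tn k (tn (star (b 0)) h))
      exact h3
    rw [← l23_star, l23_tn'] at h2
    rw [RL_apply, hX, ContinuousLinearMap.comp_apply, ContinuousLinearMap.comp_apply,
      ContinuousLinearMap.comp_apply, ← tn_eq, ← h2, col_apply, sl_apply, l12_tn]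
    have h4 := DFunLike.congr_fun (adj_e13_l13 (β := ι) U (star (g 0)))
      (tl e12 (Uh (tn k (star (b 0)))) h)
    rw [ContinuousLinearMap.comp_apply, ContinuousLinearMap.comp_apply, adj_e13_tl_e12] at h4
    exact h4.symm
  rw [h1]
  -- (2)
  obtain ⟨ζ, hζ⟩ : ∃ ζ, ζ = star M.Wt (tn (star (b 0)) h) := ⟨_, rfl⟩
  rw [← hζ]
  refine (Total.tn (total_star (total_traj M.V_group 0)) (total_univ (E := L2 ι))).mem_of_closed
    ((Cols U).comap ((RL (Equiv.refl (κ × ι × ι)) X :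
      L2 (ι × ι) →L[ℂ] (L2 κ →L[ℂ] L2 (κ × ι))) : L2 (ι × ι) →ₗ[ℂ] (L2 κ →L[ℂ] L2 (κ × ι))))
    ((isClosed_Cols U).preimage (ContinuousLinearMap.continuous _)) ?_ ζ
  rintro _ ⟨_, ⟨_, ⟨b', hb', rfl⟩, rfl⟩, h', -, rfl⟩
  change RL (Equiv.refl (κ × ι × ι)) X (tn (star (b' 0)) h') ∈ Cols U
  have h5 : RL (Equiv.refl (κ × ι × ι)) X (tn (star (b' 0)) h') =
      RL (Equiv.refl (κ × ι × ι)) (((emb e13 (b' (-(I / 2))))†) ∘L star (l12 U))
        (M.W (tn (g (I / 2)) h')) := by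
    ext k₂ : 1
    refine total_tn.ext_inner ?_
    rintro _ ⟨k₁, u, rfl⟩
    rw [RL_apply, RL_apply, hX, ContinuousLinearMap.comp_apply, ContinuousLinearMap.comp_apply,
      ContinuousLinearMap.comp_apply, inner_emb_adj, inner_emb_adj, tl_e13, tl_e13, ← tn_eq,
      ← tn_eq, tta ι M κ U Uh hh k₁ k₂ g b' u h' hg hb', l23_tn']
  rw [h5]
  exact mem2 U _ _

end Pool.Agent.MQG.H80
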